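import Pool.Agent.Helper91.SY.Heads

/-! # Head B, part 1 (packet SY-B1, MP_126465_gt) -/

set_option autoImplicit false

open Set Filter Topology
open scoped ContDiff

namespace Pool.Agent.Helper35.SY

open Pool.Agent.Helper91.SY

theorem b1_ (hIV : StmtIV) (hPS : StmtPS) (hTP : StmtTP) (hCW : StmtCW) (hCX : StmtCX) :
    StmtB1 := by
  rintro n η hη ⟨e, g, he, hSm, hPres, ⟨K, hK, hg⟩, htrap⟩
  obtain ⟨B, B0, R, hR, hB, hFar, hBη, hB0⟩ := hCW n η hη
  obtain ⟨τ, hτ⟩ := (hCX n).2.2.2 e he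
  obtain ⟨r, hr⟩ := hK.isBounded.subset_closedBall (0 : V n)
  have hR' : 0 ≤ max R (r + 1) := hR.trans (le_max_left _ _)
  have hFar' : Far (max R (r + 1)) B B0 := fun x hx => hFar x ((le_max_left _ _).trans hx)
  have hTr : Tr (max R (r + 1)) e g := by
    intro x hx
    refine hg x fun hxK => ?_
    have h1 := hr hxK
    rw [mem_closedBall_zero_iff] at h1
    have h2 := (le_max_right R (r + 1)).trans hx
    linarith
  have hPull : Pull (fun x => g x) B B := by
    intro x u v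
    rw [hBη, hBη]
    exact hPres x u v
  obtain ⟨ψ, hψ, hψi, hψB, hψW⟩ := hPS (V n) B B0 (max R (r + 1)) e τ g hR' hB hFar' hτ hSm
    hPull hTr
  have hbij := hTP (V n) (max R (r + 1)) e τ g ψ hR' hτ hSm.1.continuous hSm.2.continuous hTr hψW
    htrap
  obtain ⟨ε, hε, hεS⟩ := hIV (V n) ψ hψ hψi hbij
  refine ⟨ε.symm, ⟨hεS.2, hεS.1⟩, fun y u v => ?_⟩
  have hd : ∀ u : V n, fderiv ℝ ψ (ε.symm y) (fderiv ℝ (fun z => ε.symm z) y u) = u := by
    intro u
    have h1 : HasFDerivAt (fun z => ε.symm z) (fderiv ℝ (fun z => ε.symm z) y) y :=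
      (hεS.2.differentiable (by simp) y).hasFDerivAt
    have h2 : HasFDerivAt ψ (fderiv ℝ ψ (ε.symm y)) (ε.symm y) :=
      (hψ.differentiable (by simp) (ε.symm y)).hasFDerivAt
    have h3 := h2.comp y h1
    have h4 : (ψ ∘ fun z => ε.symm z) = fun z => z := by
      funext z
      show ψ (ε.symm z) = z
      rw [← hε, ε.apply_symm_apply]
    rw [h4] at h3
    have h5 := h3.unique (hasFDerivAt_id y)
    have h6 := congrArg (fun f : V n →L[ℝ] V n => f u) h5
    exact h6
  have h1 := hψB (ε.symm y) (fderiv ℝ (fun z => ε.symm z) y u) (fderiv ℝ (fun z => ε.symm z) y v)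
  rw [hd, hd, ← hε, ε.apply_symm_apply, hBη, hB0] at h1
  exact h1.symm

end Pool.Agent.Helper35.SY
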