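import Pool.Agent.Helper91.SY.Heads

/-! # Head A (packet SY-HA, MP_126465_gt) -/

set_option autoImplicit false

open Set Filter Topology
open scoped ContDiff

namespace Pool.Agent.Helper35.SY

open Pool.Agent.Helper91.SY

/-- the coordinate `x_i` -/
noncomputable def cx {n : ℕ} (i : Fin n) : V n →L[ℝ] ℝ :=
  (ContinuousLinearMap.proj i : (Fin n → ℝ) →L[ℝ] ℝ).comp
    (ContinuousLinearMap.fst ℝ (Fin n → ℝ) (Fin n → ℝ))

theorem cx_apply {n : ℕ} (i : Fin n) (v : V n) : cx i v = v.1 i := rfl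

/-- the vector of the coordinate -/
noncomputable def ex {n : ℕ} (i : Fin n) : V n := (0, -Pi.single i 1)

theorem w0_ex {n : ℕ} (i : Fin n) (v : V n) : w0 (ex i) v = cx i v := by
  rw [cx_apply]
  unfold w0 ex
  rw [Finset.sum_eq_single i]
  · simp
  · intro j _ hj
    simp [Pi.single_eq_of_ne hj]
  · intro h
    exact absurd (Finset.mem_univ _) h

theorem w0_right {n : ℕ} (u : V n) (i : Fin n) : w0 u (0, Pi.single i 1) = u.1 i := by
  unfold w0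
  rw [Finset.sum_eq_single i]
  · simp
  · intro j _ hj
    simp [Pi.single_eq_of_ne hj]
  · intro h
    exact absurd (Finset.mem_univ _) h

theorem invol_cx {n : ℕ} (i j : Fin n) : Invol (cx i) (cx j) := by
  intro e₁ e₂ h1 h2
  rw [h1, cx_apply]
  have h3 := h2 (0, Pi.single i 1)
  rw [w0_right, cx_apply] at h3
  rw [h3]
  rfl

theorem li_cx {n : ℕ} {i j : Fin n} (hij : i ≠ j) :
    LinearIndependent ℝ ![(cx i : V n →L[ℝ] ℝ), cx j] := by
  rw [LinearIndependent.pair_iff]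
  intro s t h
  have h1 := congrArg (fun f : V n →L[ℝ] ℝ => f (Pi.single i 1, 0)) h
  have h2 := congrArg (fun f : V n →L[ℝ] ℝ => f (Pi.single j 1, 0)) h
  have e1 : (s • cx i + t • cx j : V n →L[ℝ] ℝ) (Pi.single i 1, 0) = s := by
    show s * (Pi.single i 1 : Fin n → ℝ) i + t * (Pi.single i 1 : Fin n → ℝ) j = s
    rw [Pi.single_eq_same, Pi.single_eq_of_ne hij.symm]
    ring
  have e2 : (s • cx i + t • cx j : V n →L[ℝ] ℝ) (Pi.single j 1, 0) = t := by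
    show s * (Pi.single j 1 : Fin n → ℝ) i + t * (Pi.single j 1 : Fin n → ℝ) j = t
    rw [Pi.single_eq_same, Pi.single_eq_of_ne hij]
    ring
  exact ⟨e1.symm.trans h1, e2.symm.trans h2⟩

theorem li_vec {n : ℕ} {i j : Fin n} (hij : i ≠ j) :
    LinearIndependent ℝ ![((Pi.single i 1, 0) : V n), (Pi.single j 1, 0)] := by
  rw [LinearIndependent.pair_iff]
  intro s t h
  have h1 := congrArg (fun v : V n => v.1 i) h
  have h2 := congrArg (fun v : V n => v.1 j) h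
  have e1 : (s • ((Pi.single i 1, 0) : V n) + t • ((Pi.single j 1, 0) : V n)).1 i = s := by
    show s * (Pi.single i 1 : Fin n → ℝ) i + t * (Pi.single j 1 : Fin n → ℝ) i = s
    rw [Pi.single_eq_same, Pi.single_eq_of_ne hij]
    ring
  have e2 : (s • ((Pi.single i 1, 0) : V n) + t • ((Pi.single j 1, 0) : V n)).1 j = t := by
    show s * (Pi.single i 1 : Fin n → ℝ) j + t * (Pi.single j 1 : Fin n → ℝ) j = t
    rw [Pi.single_eq_same, Pi.single_eq_of_ne hij.symm]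
    ring
  exact ⟨e1.symm.trans h1, e2.symm.trans h2⟩

theorem fderiv_far {n : ℕ} {f : V n → ℝ} {ℓ : V n →L[ℝ] ℝ} {K : Set (V n)} (hK : IsCompact K)
    (hf : ∀ x, x ∉ K → f x = ℓ x) {x : V n} (hx : x ∉ K) : fderiv ℝ f x = ℓ := by
  have h1 : f =ᶠ[𝓝 x] fun y => ℓ y := by
    filter_upwards [hK.isClosed.isOpen_compl.mem_nhds hx] with y hy
    exact hf y hy
  rw [h1.fderiv_eq]
  exact ℓ.fderiv

theorem const_zero {n : ℕ} {η : Form n} (hη : StdAtInf η) {i j : Fin n}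
    (h : ConstBr η (cx i) (cx j)) : NonnegBr η (cx i) (cx j) := by
  obtain ⟨f₁, f₂, h1, h2, ⟨K₁, hK₁, h3⟩, ⟨K₂, hK₂, h4⟩, c, hc⟩ := h
  obtain ⟨K, hK, h5⟩ := hη.std
  refine ⟨f₁, f₂, h1, h2, ⟨K₁, hK₁, h3⟩, ⟨K₂, hK₂, h4⟩, fun x X₁ X₂ h6 h7 => ?_⟩
  rw [hc x X₁ X₂ h6 h7]
  have hne : Nontrivial (V n) := ⟨(Pi.single i 1, 0), 0, fun h8 => by
    have h9 := congrArg (fun v : V n => v.1 i) h8
    have h10 : (1 : ℝ) = 0 := by
      have e : (Pi.single i 1 : Fin n → ℝ) i = 1 := Pi.single_eq_same i 1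
      exact e.symm.trans h9
    exact one_ne_zero h10⟩
  have hnc : NoncompactSpace (V n) := NormedSpace.noncompactSpace ℝ (V n)
  obtain ⟨y, hy⟩ : ∃ y, y ∉ K₁ ∪ K₂ ∪ K := by
    by_contra hcon
    push Not at hcon
    exact ((hK₁.union hK₂).union hK).ne_univ (eq_univ_of_forall hcon)
  rw [mem_union, mem_union, not_or, not_or] at hy
  have h8 : ∀ (f : V n → ℝ) (K' : Set (V n)) (k : Fin n), IsCompact K' →
      (∀ x, x ∉ K' → f x = cx k x) → y ∉ K' → HamAt η f y (ex k) := by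
    intro f K' k hK' hf hyK v
    rw [fderiv_far hK' hf hyK, h5 y hy.2, w0_ex]
  have h9 := hc y (ex i) (ex j) (h8 f₁ K₁ i hK₁ h3 hy.1.1) (h8 f₂ K₂ j hK₂ h4 hy.1.2)
  rw [h5 y hy.2, w0_ex] at h9
  rw [← h9, cx_apply]
  exact le_rfl

theorem ha_ : StmtHA := by
  intro hAB hBA hCB hNB n hn η hη
  have hij : (⟨0, by omega⟩ : Fin n) ≠ ⟨1, by omega⟩ := fun h => by
    have := congrArg Fin.val h
    simp at this
  tfae_have 1 → 2 := fun h => (hAB n η hη h).1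
  tfae_have 2 → 3 := by
    intro h
    refine ⟨_, _, li_vec hij, ?_⟩
    obtain ⟨g₁, g₂, h1, h2, h3, h4, h5, h6, h7⟩ := h _ _ (li_vec hij)
    exact ⟨g₁, g₂, h1, h3, h5, h6, h7⟩
  tfae_have 3 → 1 := hBA n η hη
  tfae_have 1 → 4 := fun h => (hAB n η hη h).2
  tfae_have 4 → 5 := fun h => ⟨_, _, li_cx hij, h _ _ (li_cx hij)⟩
  tfae_have 5 → 3 := hCB n η hη
  tfae_have 4 → 6 := fun h => ⟨_, _, li_cx hij, invol_cx _ _, const_zero hη (h _ _ (li_cx hij))⟩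
  tfae_have 6 → 5 := fun ⟨ℓ₁, ℓ₂, h1, h2, h3⟩ => ⟨ℓ₁, ℓ₂, h1, hNB n η hη ℓ₁ ℓ₂ h1 h2 h3⟩
  tfae_finish

end Pool.Agent.Helper35.SY
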